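import Pool.Agent.H10.LDV2.Stmts
import Pool.Agent.H25.LDV.LDH

/-!
# LDV2, row LHX: large radicals, counted by the height (general exponent `T`)
-/

set_option autoImplicit false

namespace Pool.LDV2

open Finset Pool.Agent.H98.ABCR Pool.SHA Pool.BL Pool.LDV

namespace LHX

/-- one dyadic class of the height -/
theorem cls (T lam ε C ε' θ γ : ℝ) (hl0 : 0 < lam) (hε : 0 < ε) (hC : 1 ≤ C)
    (hθ : lam * θ = 1 - ε / 4) (hγ : γ = lam * (max (1 - θ) T + ε')) (hγ0 : 0 ≤ γ)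
    (hW : ∀ (X : ℝ) (F : Finset (ℕ × ℕ)), 1 ≤ X →
      (∀ v ∈ F, IsTri v ∧ (RR v : ℝ) ≤ X ∧ θ * Real.log X ≤ hh v ∧
        hh v ≤ (1 / lam + 1) * Real.log X) →
      (F.card : ℝ) ≤ C * X ^ (max (1 - θ) T + ε'))
    (Z : ℝ) (hZ : 1 ≤ Z) (F : Finset (ℕ × ℕ))
    (hF : ∀ v ∈ F, IsTri v ∧ ((v.1 + v.2 : ℕ) : ℝ) ≤ Z ∧ Z / 2 ≤ ((v.1 + v.2 : ℕ) : ℝ) ∧
      (RR v : ℝ) ≤ ((v.1 + v.2 : ℕ) : ℝ) ^ lam) :
    (F.card : ℝ) ≤ (C + Real.exp (4 / ε) ^ 2) * Z ^ γ := by
  classical
  have hZ0 : 0 < Z := by linarith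
  have hlZ : 0 ≤ Real.log Z := Real.log_nonneg hZ
  have hZγ : 1 ≤ Z ^ γ := Real.one_le_rpow hZ hγ0
  have hE : 0 < Real.exp (4 / ε) := Real.exp_pos _
  by_cases hbig : Real.exp (4 / ε) ≤ Z
  · have hX1 : 1 ≤ Z ^ lam := Real.one_le_rpow hZ hl0.le
    have hlog : Real.log (Z ^ lam) = lam * Real.log Z := Real.log_rpow hZ0 lam
    have h41 : 4 / ε ≤ Real.log Z := (Real.le_log_iff_exp_le hZ0).2 hbig
    have h42 : 1 ≤ ε / 4 * Real.log Z := by
      rw [div_le_iff₀ hε] at h41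
      linarith
    have h2 : Real.log 2 ≤ 1 := by
      have := Real.log_two_lt_d9
      linarith
    have h := hW (Z ^ lam) F hX1 (by
      intro v hv
      obtain ⟨t1, t2, t3, t4⟩ := hF v hv
      have hpos : (0 : ℝ) < ((v.1 + v.2 : ℕ) : ℝ) := by
        obtain ⟨u1, u2, -⟩ := t1
        exact_mod_cast (by omega : 0 < v.1 + v.2)
      have hh' : hh v = Real.log ((v.1 + v.2 : ℕ) : ℝ) := rfl
      refine ⟨t1, t4.trans (Real.rpow_le_rpow hpos.le t2 hl0.le), ?_, ?_⟩
      · have e1 : θ * Real.log (Z ^ lam) = Real.log Z - ε / 4 * Real.log Z := by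
          rw [hlog, ← mul_assoc, mul_comm θ lam, hθ]
          ring
        have e2 : Real.log Z - Real.log 2 ≤ hh v := by
          rw [hh', ← Real.log_div hZ0.ne' (by norm_num)]
          exact Real.log_le_log (by positivity) t3
        rw [e1]
        linarith
      · have e1 : (1 / lam + 1) * Real.log (Z ^ lam) = Real.log Z + lam * Real.log Z := by
          rw [hlog]
          field_simp
        have e2 : hh v ≤ Real.log Z := by
          rw [hh']
          exact Real.log_le_log hpos t2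
        rw [e1]
        have := mul_nonneg hl0.le hlZ
        linarith)
    rw [← Real.rpow_mul hZ0.le, ← hγ] at h
    refine h.trans ?_
    refine mul_le_mul_of_nonneg_right ?_ (by linarith)
    have := sq_nonneg (Real.exp (4 / ε))
    linarith
  · have h1 := Pool.LDV.LDH.pairs Z hZ0.le F (fun v hv => ⟨(hF v hv).1, (hF v hv).2.1⟩)
    have h2 : Z ^ 2 ≤ Real.exp (4 / ε) ^ 2 :=
      pow_le_pow_left₀ hZ0.le (not_le.1 hbig).le 2
    calc (F.card : ℝ) ≤ (C + Real.exp (4 / ε) ^ 2) * 1 := by linarith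
      _ ≤ (C + Real.exp (4 / ε) ^ 2) * Z ^ γ := by
        refine mul_le_mul_of_nonneg_left hZγ ?_
        have := sq_nonneg (Real.exp (4 / ε))
        linarith

end LHX

open LHX Pool.LDV.LDH in
/-- **LHX**. -/
theorem lhx_thm (h1 : S_LWX) : S_LHX := by
  classical
  intro T hT1 hT2 hWB lam ε hl0 hl3 hε
  obtain ⟨ε', hε'⟩ : ∃ ε', ε' = ε / (4 * lam) := ⟨_, rfl⟩
  have hε0 : 0 < ε' := by
    rw [hε']
    positivity
  have hle : lam * ε' = ε / 4 := by
    rw [hε']
    field_simp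
  obtain ⟨θ, hθ⟩ : ∃ θ, θ = 1 / lam - ε' := ⟨_, rfl⟩
  have hlθ : lam * θ = 1 - ε / 4 := by
    rw [hθ, mul_sub, hle, mul_one_div, div_self hl0.ne']
  by_cases hcase : 1 / 3 ≤ θ
  · have hk : 1 ≤ 1 / lam + 1 := by
      have : 0 < 1 / lam := by positivity
      linarith
    obtain ⟨C, hC, hW⟩ := h1 T hT1 hT2 hWB θ (1 / lam + 1) ε' hcase (by rw [hθ]; linarith) hk hε0
    obtain ⟨γ, hγ⟩ : ∃ γ, γ = lam * (max (1 - θ) T + ε') := ⟨_, rfl⟩
    have hmax : T ≤ max (1 - θ) T := le_max_right _ _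
    have hγ0 : 0 < γ := by
      rw [hγ]
      exact mul_pos hl0 (by linarith)
    have h2γ : 1 ≤ (2 : ℝ) ^ γ := Real.one_le_rpow (by norm_num) hγ0.le
    obtain ⟨D, hD⟩ : ∃ D : ℝ, D = C + Real.exp (4 / ε) ^ 2 := ⟨_, rfl⟩
    have hD1 : 1 ≤ D := by
      have := sq_nonneg (Real.exp (4 / ε))
      rw [hD]
      linarith
    obtain ⟨M, hM⟩ : ∃ M : ℝ, M = D * (2 : ℝ) ^ γ := ⟨_, rfl⟩
    have hM1 : 1 ≤ M := by
      rw [hM]
      nlinarith
    have hδ : 0 < ε / 2 := by linarith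
    have hCC : 1 ≤ (2 / (ε / 2) + 1) * M := by
      have : 1 ≤ 2 / (ε / 2) + 1 := by
        have : 0 ≤ 2 / (ε / 2) := by positivity
        linarith
      nlinarith
    refine ⟨(2 / (ε / 2) + 1) * M, hCC, ?_⟩
    intro H F hH hF
    have hH0 : 0 < H := by linarith
    have key := dya (fun v => v.1 + v.2) γ (ε / 2) M H hδ (by linarith) hH F
      (fun v hv => (hF v hv).2.1) (by
      intro j hj
      have hZ1 : (1 : ℝ) ≤ (2 : ℝ) ^ (j + 1) := one_le_pow₀ (by norm_num)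
      have h4 := cls T lam ε C ε' θ γ hl0 hε hC hlθ hγ hγ0.le hW ((2 : ℝ) ^ (j + 1)) hZ1
        (F.filter (fun v => Nat.log 2 (v.1 + v.2) = j)) (by
        intro v hv
        rw [Finset.mem_filter] at hv
        obtain ⟨hvF, hvj⟩ := hv
        obtain ⟨t1, t2, t3⟩ := hF v hvF
        have hpos : 0 < v.1 + v.2 := by
          obtain ⟨u1, u2, -⟩ := t1
          omega
        have h5 : v.1 + v.2 < 2 ^ (j + 1) := by
          rw [← hvj]; exact Nat.lt_pow_succ_log_self (by norm_num) _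
        have h6 : 2 ^ j ≤ v.1 + v.2 := by
          rw [← hvj]; exact Nat.pow_log_le_self 2 (by omega)
        have h5' : ((v.1 + v.2 : ℕ) : ℝ) ≤ (2 : ℝ) ^ (j + 1) := by exact_mod_cast h5.le
        have h6' : (2 : ℝ) ^ j ≤ ((v.1 + v.2 : ℕ) : ℝ) := by exact_mod_cast h6
        refine ⟨t1, h5', ?_, t3⟩
        rw [pow_succ]
        linarith)
      rw [← hD] at h4
      refine h4.trans ?_
      have h5 : (2 : ℝ) ^ (j + 1) ≤ 2 * H := by
        have h6 : 2 ^ j ≤ ⌊H⌋₊ := by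
          refine le_trans (Nat.pow_le_pow_right (by norm_num) hj) (Nat.pow_log_le_self 2 ?_)
          have : 1 ≤ ⌊H⌋₊ := Nat.le_floor (by exact_mod_cast hH)
          omega
        have h7 : ((2 : ℝ)) ^ j ≤ H := le_trans (by exact_mod_cast h6) (Nat.floor_le hH0.le)
        rw [pow_succ]; linarith
      calc D * ((2 : ℝ) ^ (j + 1)) ^ γ ≤ D * (2 * H) ^ γ :=
            mul_le_mul_of_nonneg_left (Real.rpow_le_rpow (by positivity) h5 hγ0.le) (by linarith)
        _ = M * H ^ γ := by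
            rw [Real.mul_rpow (by norm_num) hH0.le, hM]
            ring)
    refine key.trans ?_
    refine mul_le_mul_of_nonneg_left ?_ (by linarith)
    refine Real.rpow_le_rpow_of_exponent_le hH ?_
    have hm : lam * max (1 - θ) T ≤ max (lam - 1) (T * lam) + ε / 4 := by
      rw [mul_max_of_nonneg _ _ hl0.le]
      refine max_le ?_ ?_
      · have h3 : lam * (1 - θ) = lam - 1 + ε / 4 := by
          rw [mul_sub, hlθ]
          ring
        rw [h3]
        have := le_max_left (lam - 1) (T * lam)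
        linarith
      · have := le_max_right (lam - 1) (T * lam)
        linarith
    have h3 : γ = lam * max (1 - θ) T + ε / 4 := by
      rw [hγ, mul_add, hle]
    linarith
  · refine ⟨1, le_refl 1, ?_⟩
    intro H F hH hF
    have hH0 : 0 < H := by linarith
    have h2 := pairs H hH0.le F (fun v hv => ⟨(hF v hv).1, (hF v hv).2.1⟩)
    rw [one_mul]
    refine h2.trans ?_
    rw [← Real.rpow_natCast H 2]
    refine Real.rpow_le_rpow_of_exponent_le hH ?_
    have h3 : θ < 1 / 3 := not_le.1 hcase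
    have h4 : lam * θ ≤ lam * (1 / 3) := mul_le_mul_of_nonneg_left h3.le hl0.le
    rw [hlθ] at h4
    have := le_max_left (lam - 1) (T * lam)
    push_cast
    linarith

end Pool.LDV2
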